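import Mathlib
import Pool.Agent.X34.CY.Stm

/-! Part CU of project CY (MP_6efeb4_pr): counting the `l1` ball and its residue classes. -/

namespace Pool.Agent.X153.CY

open Finset Pool.Agent.X34.CY

theorem mem_Wu {k R : ℕ} {w : Fin k → ℤ} : w ∈ Wu k R ↔ ∑ i, |w i| ≤ (R : ℤ) := by
  unfold Wu
  rw [mem_filter, Fintype.mem_piFinset]
  constructor
  · exact fun h => h.2
  · intro h
    refine ⟨fun i => ?_, h⟩
    rw [mem_Icc, ← abs_le]
    exact le_trans (single_le_sum (f := fun i => |w i|) (fun i _ => abs_nonneg _) (mem_univ i)) h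

noncomputable def cS (k R g : ℕ) (r : Fin k → ℤ) : Finset (Fin k → ℤ) :=
  (Wu k R).filter fun w' => ∀ i, (g : ℤ) ∣ w' i - r i

theorem mem_cS {k R g : ℕ} {r w : Fin k → ℤ} :
    w ∈ cS k R g r ↔ ∑ i, |w i| ≤ (R : ℤ) ∧ ∀ i, (g : ℤ) ∣ w i - r i := by
  unfold cS
  rw [mem_filter, mem_Wu]

theorem cS_succ (k R g : ℕ) (r : Fin (k + 1) → ℤ) : (cS (k + 1) R g r).card =
    ∑ v ∈ (Icc (-(R : ℤ)) R).filter (fun v => (g : ℤ) ∣ v - r 0),
      (cS k (R - v.natAbs) g (fun i => r i.succ)).card := by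
  rw [card_eq_sum_card_fiberwise (f := fun w => w 0)
    (t := (Icc (-(R : ℤ)) R).filter (fun v => (g : ℤ) ∣ v - r 0))]
  · apply sum_congr rfl
    intro v hv
    rw [mem_filter, mem_Icc] at hv
    have habs : v.natAbs ≤ R := by omega
    have hcast : ((R - v.natAbs : ℕ) : ℤ) = R - |v| := by
      rw [Nat.cast_sub habs, Int.natCast_natAbs]
    refine card_bij' (fun w _ => fun i => w i.succ) (fun u _ => (Fin.cons v u : Fin (k + 1) → ℤ))
      ?_ ?_ ?_ ?_
    · intro w hw
      rw [mem_filter, mem_cS, Fin.sum_univ_succ] at hw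
      obtain ⟨⟨h1, h2⟩, h3⟩ := hw
      rw [mem_cS, hcast]
      refine ⟨?_, fun i => h2 i.succ⟩
      rw [h3] at h1
      linarith
    · intro u hu
      rw [mem_cS, hcast] at hu
      rw [mem_filter, mem_cS, Fin.sum_univ_succ]
      simp only [Fin.cons_zero, Fin.cons_succ]
      refine ⟨⟨by linarith [hu.1], ?_⟩, trivial⟩
      intro i
      refine Fin.cases ?_ ?_ i
      · simpa using hv.2
      · intro j
        simpa using hu.2 j
    · intro w hw
      rw [mem_filter] at hw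
      funext i
      refine Fin.cases ?_ ?_ i
      · simp only [Fin.cons_zero]; exact hw.2.symm
      · intro j; simp only [Fin.cons_succ]
    · intro u _
      funext i
      simp only [Fin.cons_succ]
  · intro w hw
    have hw' := (by exact_mod_cast hw : w ∈ cS (k + 1) R g r)
    rw [mem_cS, Fin.sum_univ_succ] at hw'
    obtain ⟨h1, h2⟩ := hw'
    have h3 : 0 ≤ ∑ i : Fin k, |w i.succ| := sum_nonneg fun i _ => abs_nonneg _
    have h4 : |w 0| ≤ (R : ℤ) := by linarith
    rw [mem_coe, mem_filter, mem_Icc]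
    exact ⟨abs_le.1 h4, h2 0⟩

theorem bern (k : ℕ) (s : ℝ) (hs : 0 ≤ s) :
    s ^ (k + 1) + (k + 1) * s ^ k ≤ (s + 1) ^ (k + 1) := by
  induction k with
  | zero => simp
  | succ k ih =>
    have h1 : (s + 1) * (s ^ (k + 1) + (k + 1) * s ^ k) ≤ (s + 1) * (s + 1) ^ (k + 1) :=
      mul_le_mul_of_nonneg_left ih (by linarith)
    have h2 : (0 : ℝ) ≤ (k + 1) * s ^ k := by positivity
    have e1 : (s + 1) * (s + 1) ^ (k + 1) = (s + 1) ^ (k + 1 + 1) := by ring
    have e2 : (s + 1) * (s ^ (k + 1) + (k + 1) * s ^ k)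
        = s ^ (k + 1 + 1) + (k + 1 + 1) * s ^ (k + 1) + (k + 1) * s ^ k := by ring
    rw [e1, e2] at h1
    push_cast
    linarith

theorem tele (k : ℕ) (y : ℝ) : ∀ m : ℕ, (m : ℝ) ≤ y + 1 →
    ∑ i ∈ range m, ((k : ℝ) + 1) * (y - i) ^ k ≤ (y + 1) ^ (k + 1) - (y + 1 - m) ^ (k + 1) := by
  intro m
  induction m with
  | zero => intro _; simp
  | succ m ih =>
    intro hm
    push_cast at hm
    rw [sum_range_succ]
    have h1 := ih (by linarith)
    have h2 := bern k (y - m) (by linarith)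
    have e : y - m + 1 = y + 1 - m := by ring
    rw [e] at h2
    have e2 : y + 1 - ((m + 1 : ℕ) : ℝ) = y - m := by push_cast; ring
    rw [e2]
    linarith

/-- one side of the residue class -/
theorem one_side (k R g : ℕ) (hg : 1 ≤ g) (S : Finset ℤ) (hS : ∀ v ∈ S, v.natAbs ≤ R)
    (hinj : ∀ v ∈ S, ∀ v' ∈ S, v.natAbs / g = v'.natAbs / g → v = v') :
    ∑ v ∈ S, ((k : ℝ) + 1) * (((R - v.natAbs : ℕ) : ℝ) / g + k) ^ k
      ≤ ((R : ℝ) / g + k + 1) ^ (k + 1) := by
  have hg' : (0 : ℝ) < g := by exact_mod_cast hg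
  have h1 : ∑ v ∈ S, ((k : ℝ) + 1) * (((R - v.natAbs : ℕ) : ℝ) / g + k) ^ k
      ≤ ∑ v ∈ S, (fun i : ℕ => ((k : ℝ) + 1) * (((R : ℝ) / g + k) - i) ^ k) (v.natAbs / g) := by
    apply sum_le_sum
    intro v hv
    simp only
    apply mul_le_mul_of_nonneg_left _ (by positivity)
    apply pow_le_pow_left₀ (by positivity)
    rw [Nat.cast_sub (hS v hv)]
    have h2 : ((v.natAbs / g : ℕ) : ℝ) ≤ (v.natAbs : ℝ) / g := Nat.cast_div_le
    rw [sub_div]
    linarith
  refine le_trans h1 ?_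
  have h2 : ∑ v ∈ S, (fun i : ℕ => ((k : ℝ) + 1) * (((R : ℝ) / g + k) - i) ^ k) (v.natAbs / g)
      = ∑ i ∈ S.image (fun v => v.natAbs / g), ((k : ℝ) + 1) * (((R : ℝ) / g + k) - i) ^ k := by
    rw [sum_image]
    intro v hv v' hv' h
    exact hinj v hv v' hv' h
  rw [h2]
  have hfl : ((R / g : ℕ) : ℝ) ≤ (R : ℝ) / g := Nat.cast_div_le
  have h3 : ∑ i ∈ S.image (fun v => v.natAbs / g), ((k : ℝ) + 1) * (((R : ℝ) / g + k) - i) ^ k
      ≤ ∑ i ∈ range (R / g + 1), ((k : ℝ) + 1) * (((R : ℝ) / g + k) - i) ^ k := by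
    apply sum_le_sum_of_subset_of_nonneg
    · intro i hi
      rw [mem_image] at hi
      obtain ⟨v, hv, rfl⟩ := hi
      rw [mem_range]
      have := Nat.div_le_div_right (c := g) (hS v hv)
      omega
    · intro i hi _
      rw [mem_range] at hi
      have h4 : (i : ℝ) ≤ ((R / g : ℕ) : ℝ) := by exact_mod_cast Nat.lt_succ_iff.1 hi
      have h5 : (0 : ℝ) ≤ (R : ℝ) / g + k - i := by
        have : (0 : ℝ) ≤ k := Nat.cast_nonneg k
        linarith
      positivity
  refine le_trans h3 ?_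
  have hk0 : (0 : ℝ) ≤ k := Nat.cast_nonneg k
  have h6 := tele k ((R : ℝ) / g + k) (R / g + 1) (by push_cast; linarith)
  have h7 : (0 : ℝ) ≤ ((R : ℝ) / g + k + 1 - ((R / g + 1 : ℕ) : ℝ)) ^ (k + 1) := by
    apply pow_nonneg
    push_cast
    linarith
  linarith

theorem upper (k : ℕ) : ∀ (R g : ℕ) (r : Fin k → ℤ), 1 ≤ g →
    ((cS k R g r).card : ℝ) * k.factorial ≤ 2 ^ k * ((R : ℝ) / g + k) ^ k := by
  induction k with
  | zero =>
    intro R g r _
    have h1 : (cS 0 R g r).card ≤ 1 := by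
      apply Finset.card_le_one.2
      intro a _ b _
      exact Subsingleton.elim a b
    have h2 : ((cS 0 R g r).card : ℝ) ≤ 1 := by exact_mod_cast h1
    simpa using h2
  | succ k ih =>
    intro R g r hg
    set T := (Icc (-(R : ℤ)) R).filter (fun v => (g : ℤ) ∣ v - r 0) with hT
    have hTm : ∀ v ∈ T, v.natAbs ≤ R ∧ (g : ℤ) ∣ v - r 0 := by
      intro v hv
      rw [hT, mem_filter, mem_Icc] at hv
      exact ⟨by omega, hv.2⟩
    rw [cS_succ, Nat.cast_sum, Finset.sum_mul]
    have h1 : ∑ v ∈ T, ((cS k (R - v.natAbs) g (fun i => r i.succ)).card : ℝ) *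
        ((k + 1).factorial : ℝ)
        ≤ ∑ v ∈ T, 2 ^ k * (((k : ℝ) + 1) * (((R - v.natAbs : ℕ) : ℝ) / g + k) ^ k) := by
      apply sum_le_sum
      intro v _
      have h2 := ih (R - v.natAbs) g (fun i => r i.succ) hg
      rw [Nat.factorial_succ]
      push_cast
      have h3 := mul_le_mul_of_nonneg_left h2 (by positivity : (0 : ℝ) ≤ (k : ℝ) + 1)
      linarith
    refine le_trans h1 ?_
    rw [← Finset.mul_sum, ← Finset.sum_filter_add_sum_filter_not T (fun v => 0 ≤ v)]
    have key : ∀ v ∈ T, ∀ v' ∈ T, |v - v'| < g → v = v' := by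
      intro v hv v' hv' h
      have h2 : (g : ℤ) ∣ v - v' := by
        have := dvd_sub (hTm v hv).2 (hTm v' hv').2
        have e : v - r 0 - (v' - r 0) = v - v' := by ring
        rwa [e] at this
      have := Int.eq_zero_of_abs_lt_dvd h2 h
      linarith
    have hdiv : ∀ a b : ℕ, a / g = b / g → |(a : ℤ) - b| < g := by
      intro a b hab
      have a1 := Nat.div_add_mod a g
      have b1 := Nat.div_add_mod b g
      have a2 := Nat.mod_lt a (show 0 < g by omega)
      have b2 := Nat.mod_lt b (show 0 < g by omega)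
      rw [hab] at a1
      rw [abs_lt]
      constructor
      · have : (b : ℤ) < a + g := by exact_mod_cast (by omega : b < a + g)
        linarith
      · have : (a : ℤ) < b + g := by exact_mod_cast (by omega : a < b + g)
        linarith
    have hp := one_side k R g hg (T.filter (fun v => 0 ≤ v))
      (fun v hv => (hTm v (mem_filter.1 hv).1).1) (by
        intro v hv v' hv' h
        rw [mem_filter] at hv hv'
        apply key v hv.1 v' hv'.1
        have := hdiv _ _ h
        rwa [Int.natAbs_of_nonneg hv.2, Int.natAbs_of_nonneg hv'.2] at this)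
    have hn := one_side k R g hg (T.filter (fun v => ¬ 0 ≤ v))
      (fun v hv => (hTm v (mem_filter.1 hv).1).1) (by
        intro v hv v' hv' h
        rw [mem_filter] at hv hv'
        apply key v hv.1 v' hv'.1
        have h2 := hdiv _ _ h
        rw [Int.ofNat_natAbs_of_nonpos (by linarith [hv.2]),
          Int.ofNat_natAbs_of_nonpos (by linarith [hv'.2])] at h2
        have e : -v - -v' = -(v - v') := by ring
        rwa [e, abs_neg] at h2)
    have h5 : (2 : ℝ) ^ (k + 1) * ((R : ℝ) / g + ((k + 1 : ℕ) : ℝ)) ^ (k + 1)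
        = 2 ^ k * (((R : ℝ) / g + k + 1) ^ (k + 1) + ((R : ℝ) / g + k + 1) ^ (k + 1)) := by
      push_cast
      rw [pow_succ 2 k, ← add_assoc]
      ring
    rw [h5]
    exact mul_le_mul_of_nonneg_left (add_le_add hp hn) (by positivity)

theorem cS_one (k R : ℕ) (r : Fin k → ℤ) : cS k R 1 r = Wu k R := by
  unfold cS
  rw [filter_true_of_mem]
  intro w _ i
  simp

theorem bern2 (k Y : ℕ) : (Y + 1) ^ (k + 1) ≤ Y ^ (k + 1) + (k + 1) * (Y + 1) ^ k := by
  induction k with
  | zero => simp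
  | succ k ih =>
    have h1 : (Y + 1) * (Y + 1) ^ (k + 1) ≤ (Y + 1) * (Y ^ (k + 1) + (k + 1) * (Y + 1) ^ k) :=
      Nat.mul_le_mul_left _ ih
    have h2 : Y ^ (k + 1) ≤ (Y + 1) ^ (k + 1) := Nat.pow_le_pow_left (by omega) _
    have e1 : (Y + 1) * (Y + 1) ^ (k + 1) = (Y + 1) ^ (k + 1 + 1) := by ring
    have e2 : (Y + 1) * (Y ^ (k + 1) + (k + 1) * (Y + 1) ^ k)
        = Y ^ (k + 1 + 1) + Y ^ (k + 1) + (k + 1) * (Y + 1) ^ (k + 1) := by ring
    rw [e1, e2] at h1
    calc (Y + 1) ^ (k + 1 + 1) ≤ Y ^ (k + 1 + 1) + Y ^ (k + 1) + (k + 1) * (Y + 1) ^ (k + 1) := h1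
      _ ≤ Y ^ (k + 1 + 1) + (Y + 1) ^ (k + 1) + (k + 1) * (Y + 1) ^ (k + 1) := by omega
      _ = Y ^ (k + 1 + 1) + (k + 1 + 1) * (Y + 1) ^ (k + 1) := by ring

theorem powsum (k Y : ℕ) : Y ^ (k + 1) ≤ (k + 1) * ∑ s ∈ range (Y + 1), s ^ k := by
  induction Y with
  | zero => simp
  | succ Y ih =>
    rw [sum_range_succ, mul_add]
    have := bern2 k Y
    omega

theorem lower (k : ℕ) : ∀ R : ℕ, 2 ^ k * (R - k) ^ k ≤ k.factorial * (Wu k R).card := by
  induction k with
  | zero =>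
    intro R
    have h1 : 0 < (Wu 0 R).card := by
      apply Finset.card_pos.2
      refine ⟨fun i => i.elim0, ?_⟩
      rw [mem_Wu]
      simp
    rw [pow_zero, pow_zero, Nat.factorial_zero]
    omega
  | succ k ih =>
    intro R
    have h1 := cS_succ k R 1 (0 : Fin (k + 1) → ℤ)
    rw [cS_one] at h1
    have h2 : (Icc (-(R : ℤ)) R).filter (fun v => ((1 : ℕ) : ℤ) ∣ v - (0 : Fin (k + 1) → ℤ) 0)
        = Icc (-(R : ℤ)) R := by
      rw [filter_true_of_mem]
      intro v _
      simp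
    rw [h2] at h1
    have h3 : (Wu (k + 1) R).card = ∑ v ∈ Icc (-(R : ℤ)) R, (Wu k (R - v.natAbs)).card := by
      rw [h1]
      apply sum_congr rfl
      intro v _
      rw [cS_one]
    rw [h3, Nat.factorial_succ, mul_assoc, Finset.mul_sum]
    have h4 : ∑ v ∈ Icc (-(R : ℤ)) R, 2 ^ k * (R - v.natAbs - k) ^ k
        ≤ ∑ v ∈ Icc (-(R : ℤ)) R, k.factorial * (Wu k (R - v.natAbs)).card :=
      sum_le_sum fun v _ => ih (R - v.natAbs)
    -- two copies of the positive side
    have hpos : ∑ v ∈ (Icc 1 R).image (fun t : ℕ => (t : ℤ)), 2 ^ k * (R - v.natAbs - k) ^ k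
        = ∑ t ∈ Icc 1 R, 2 ^ k * (R - t - k) ^ k := by
      rw [sum_image (by
        intro a _ b _ h
        have h' : (a : ℤ) = (b : ℤ) := h
        exact_mod_cast h')]
      simp
    have hneg : ∑ v ∈ (Icc 1 R).image (fun t : ℕ => -(t : ℤ)), 2 ^ k * (R - v.natAbs - k) ^ k
        = ∑ t ∈ Icc 1 R, 2 ^ k * (R - t - k) ^ k := by
      rw [sum_image (by
        intro a _ b _ h
        have h' : -(a : ℤ) = -(b : ℤ) := h
        have : (a : ℤ) = b := by linarith
        exact_mod_cast this)]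
      simp
    have hdisj : Disjoint ((Icc 1 R).image (fun t : ℕ => (t : ℤ)))
        ((Icc 1 R).image (fun t : ℕ => -(t : ℤ))) := by
      rw [Finset.disjoint_left]
      intro v h5 h6
      rw [mem_image] at h5 h6
      obtain ⟨a, ha, rfl⟩ := h5
      obtain ⟨b, hb, h7⟩ := h6
      rw [mem_Icc] at ha hb
      omega
    have hsub : (Icc 1 R).image (fun t : ℕ => (t : ℤ)) ∪ (Icc 1 R).image (fun t : ℕ => -(t : ℤ))
        ⊆ Icc (-(R : ℤ)) R := by
      intro v hv
      rw [mem_union, mem_image, mem_image] at hv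
      rw [mem_Icc]
      rcases hv with ⟨a, ha, rfl⟩ | ⟨a, ha, rfl⟩ <;> rw [mem_Icc] at ha <;> omega
    have h5 : ∑ t ∈ Icc 1 R, 2 ^ k * (R - t - k) ^ k + ∑ t ∈ Icc 1 R, 2 ^ k * (R - t - k) ^ k
        ≤ ∑ v ∈ Icc (-(R : ℤ)) R, 2 ^ k * (R - v.natAbs - k) ^ k := by
      rw [← hpos]
      nth_rewrite 2 [hpos]
      rw [← hneg, ← sum_union hdisj]
      exact sum_le_sum_of_subset hsub
    -- the sum of powers
    have h6 : (R - (k + 1)) ^ (k + 1) ≤ (k + 1) * ∑ t ∈ Icc 1 R, (R - t - k) ^ k := by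
      rcases Nat.lt_or_ge R (k + 1) with hR | hR
      · have : R - (k + 1) = 0 := by omega
        rw [this]
        simp
      · refine le_trans (powsum k (R - (k + 1))) ?_
        apply Nat.mul_le_mul_left
        have h7 : ∑ s ∈ range (R - (k + 1) + 1), s ^ k
            = ∑ t ∈ (range (R - (k + 1) + 1)).image (fun s => R - k - s), (R - t - k) ^ k := by
          rw [sum_image]
          · apply sum_congr rfl
            intro s hs
            rw [mem_range] at hs
            congr 1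
            omega
          · intro a ha b hb h
            have ha' := mem_range.1 (by exact_mod_cast ha : a ∈ range (R - (k + 1) + 1))
            have hb' := mem_range.1 (by exact_mod_cast hb : b ∈ range (R - (k + 1) + 1))
            simp only at h
            omega
        rw [h7]
        apply sum_le_sum_of_subset
        intro t ht
        rw [mem_image] at ht
        obtain ⟨s, hs, rfl⟩ := ht
        rw [mem_range] at hs
        rw [mem_Icc]
        omega
    calc 2 ^ (k + 1) * (R - (k + 1)) ^ (k + 1)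
        ≤ 2 ^ (k + 1) * ((k + 1) * ∑ t ∈ Icc 1 R, (R - t - k) ^ k) := Nat.mul_le_mul_left _ h6
      _ = (k + 1) * (∑ t ∈ Icc 1 R, 2 ^ k * (R - t - k) ^ k
            + ∑ t ∈ Icc 1 R, 2 ^ k * (R - t - k) ^ k) := by
          rw [← Finset.mul_sum]; ring
      _ ≤ (k + 1) * ∑ v ∈ Icc (-(R : ℤ)) R, k.factorial * (Wu k (R - v.natAbs)).card :=
          Nat.mul_le_mul_left _ (le_trans h5 h4)

theorem t_CU : S_CU := by
  intro k R _ _
  refine ⟨lower k R, ?_, ?_⟩
  · have h := upper k R 1 0 le_rfl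
    rw [cS_one] at h
    simp only [Nat.cast_one, div_one] at h
    exact_mod_cast h
  · intro g hg w _
    have h := upper k R g w hg
    refine le_trans h ?_
    apply mul_le_mul_of_nonneg_left _ (by positivity)
    apply pow_le_pow_left₀ (by positivity)
    have : (0 : ℝ) ≤ k := Nat.cast_nonneg k
    linarith

end Pool.Agent.X153.CY
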